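import Pool.Agent.H34.TAM.Stmts3

/-!
Row YDV of the board `per`.
-/

set_option autoImplicit false

noncomputable section

open Filter
open scoped Topology TensorProduct

namespace Pool.PER

open Pool.CGR Pool.CGS Pool.TAM Pool.AUT MulOpposite

theorem ydv_thm (hDPE : Pool.AUT.DPEStmt) (hCPE : Pool.AUT.CPEStmt) : YDVStmt := by
  intro m A _ τ hτ x D hD hY
  obtain ⟨d1, d2, d3⟩ := hDPE m A τ x D hD
  obtain ⟨t1, -, t3, -, -⟩ := two_thm A τ hτ
  constructor
  · intro η hη
    obtain ⟨H, hH⟩ := hY η hη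
    refine ⟨pe io H, fun δ hδ => ?_⟩
    choose P hP using fun k => d1 (δ (io k))
    have e1 : ∀ k, tt (tx τ x) (D k (δ (io k))) = dp τ x k (P k) := fun k => by
      rw [← hP k, d3]
    have e2 : ∀ k, FreeAlgebra.lift ℂ x (δ (io k)) = pe x (P k) := fun k => by
      rw [← hP k, d2]
    have e3 : tx τ x (δ (pe io H)) = ∑ k, τ (cp x k H * pe x (P k)) := by
      rw [hCPE m A τ hτ.comm x δ hδ H]
      exact Finset.sum_congr rfl fun k _ => by rw [e2]
    rw [e3, Finset.sum_congr rfl fun k _ => e1 k, ← Finset.sum_sub_distrib, Finset.mul_sum]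
    refine (norm_sum_le _ _).trans (Finset.sum_le_sum fun k _ => ?_)
    rw [e2]
    exact hH k (P k)
  · obtain ⟨H, hH⟩ := hY 1 one_pos
    refine ⟨1 + ∑ k, n2 τ (cp x k H), ?_, fun k q => ?_⟩
    · have : 0 ≤ ∑ k, n2 τ (cp x k H) := Finset.sum_nonneg fun k _ => (t3 _).1
      linarith
    · obtain ⟨P, rfl⟩ := d1 q
      rw [← d3, d2]
      have h1 := hH k P
      have h2 := t1 (cp x k H) (pe x P)
      have h3 : n2 τ (cp x k H) ≤ ∑ k, n2 τ (cp x k H) :=
        Finset.single_le_sum (f := fun k => n2 τ (cp x k H)) (fun k _ => (t3 _).1)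
          (Finset.mem_univ k)
      have h4 : ‖dp τ x k P‖ ≤ ‖dp τ x k P - τ (cp x k H * pe x P)‖ +
          ‖τ (cp x k H * pe x P)‖ := by
        have := norm_add_le (dp τ x k P - τ (cp x k H * pe x P)) (τ (cp x k H * pe x P))
        rwa [sub_add_cancel] at this
      have h5 := mul_le_mul_of_nonneg_right h3 (t3 (pe x P)).1
      rw [add_mul]
      linarith

end Pool.PER
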